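import Pool.Agent.Helper15.MT.Refs
import Pool.Agent.Helper2.MC.Top

/-! Project MU. A block with a cocharacter with two weights whose multiplicities are coprime. -/

set_option autoImplicit false

namespace Pool.Agent.Helper15.MU

open Module Pool.Agent.Helper15.MT

variable {L W G : Type} [Field L] [Group G] [AddCommGroup W] [Module L W]

/-- On `B` the cocharacter `m` has two weights `a ≠ b`, whose multiplicities are coprime. -/
def IsCopA (ρ : G →* End L W) (m : Lˣ →* G) (B : Submodule L W) : Prop :=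
  ∃ (a b : ℤ) (H H' : Submodule L W), a ≠ b ∧ Nat.Coprime (finrank L H) (finrank L H') ∧
    B = H ⊔ H' ∧ (∀ u : Lˣ, ∀ w ∈ H, ρ (m u) w = ((u ^ a : Lˣ) : L) • w) ∧
    ∀ u : Lˣ, ∀ w ∈ H', ρ (m u) w = ((u ^ b : Lˣ) : L) • w

/-- The projection to the part of weight `a` is, up to scalars, the derivative. -/
theorem IsCopA.exists_proj [CharZero L] [FiniteDimensional L W] {ρ : G →* End L W} {m : Lˣ →* G}
    {B : Submodule L W} (h : IsCopA ρ m B) {D : End L W}
    (hD : IsWt (fun u => ρ (m u)) D) (hDB : ∀ s ∈ B, D s ∈ B) :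
    ∃ (P : End L B) (c d : L), P * P = P ∧
      Nat.Coprime (finrank L (LinearMap.range P)) (finrank L B) ∧
      c • (D.restrict hDB - d • 1) = P := by
  classical
  obtain ⟨a, b, H, H', hab, hcop, hB, h1, h2⟩ := h
  have hHB : H ≤ B := by rw [hB]; exact le_sup_left
  have hHB' : H' ≤ B := by rw [hB]; exact le_sup_right
  have hab' : (a : L) - b ≠ 0 := by
    rw [sub_ne_zero]
    exact_mod_cast hab
  have e1 : ∀ w ∈ H, D w = (a : L) • w := fun w hw => hD.apply_of_weight (h1 _ w hw)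
  have e2 : ∀ w ∈ H', D w = (b : L) • w := fun w hw => hD.apply_of_weight (h2 _ w hw)
  let P : End L B := ((a : L) - b)⁻¹ • (D.restrict hDB - (b : L) • 1)
  have hP : ∀ x : B, ((P x : B) : W) = ((a : L) - b)⁻¹ • (D x - (b : L) • (x : W)) := fun _ => rfl
  have hPH : ∀ x : B, (x : W) ∈ H → P x = x := by
    intro x hx
    apply Subtype.ext
    rw [hP, e1 _ hx, ← sub_smul, smul_smul, inv_mul_cancel₀ hab', one_smul]
  have hPH' : ∀ x : B, (x : W) ∈ H' → P x = 0 := by
    intro x hx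
    apply Subtype.ext
    rw [hP, e2 _ hx, sub_self, smul_zero]
    rfl
  have hdec : ∀ x : B, ∃ y : B, (y : W) ∈ H ∧ P x = y := by
    rintro ⟨x, hx⟩
    have hx' := hx
    rw [hB] at hx'
    obtain ⟨y, hy, z, hz, rfl⟩ := Submodule.mem_sup.1 hx'
    refine ⟨⟨y, hHB hy⟩, hy, ?_⟩
    have h3 : (⟨y + z, hx⟩ : B) = ⟨y, hHB hy⟩ + ⟨z, hHB' hz⟩ := rfl
    rw [h3, map_add, hPH _ hy, hPH' _ hz, add_zero]
  have hinf : H ⊓ H' = ⊥ := by
    rw [eq_bot_iff]
    rintro w ⟨hw, hw'⟩
    have h3 := e1 w hw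
    rw [e2 w hw'] at h3
    have h4 : ((a : L) - b) • w = 0 := by rw [sub_smul, ← h3, sub_self]
    exact (Submodule.mem_bot L).2 ((smul_eq_zero.1 h4).resolve_left hab')
  have hr : (LinearMap.range P).map B.subtype = H := by
    ext w
    constructor
    · rintro ⟨_, ⟨x, rfl⟩, rfl⟩
      obtain ⟨y, hy, h3⟩ := hdec x
      rw [h3]
      exact hy
    · intro hw
      exact ⟨⟨w, hHB hw⟩, ⟨⟨w, hHB hw⟩, hPH _ hw⟩, rfl⟩
  refine ⟨P, ((a : L) - b)⁻¹, b, ?_, ?_, rfl⟩
  · refine LinearMap.ext fun x => ?_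
    obtain ⟨y, hy, h3⟩ := hdec x
    rw [Module.End.mul_apply, h3, hPH _ hy]
  · have h3 : finrank L (LinearMap.range P) = finrank L H := by
      rw [← hr]
      exact (Submodule.finrank_map_subtype_eq B (LinearMap.range P)).symm
    have h4 := Submodule.finrank_sup_add_finrank_inf_eq H H'
    rw [hinf, finrank_bot, add_zero, ← hB] at h4
    rw [h3, h4, Nat.coprime_self_add_right]
    exact hcop

/-- **A block with coprime multiplicities is full.** `J` is a subgroup such that subspaces which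
are stable under a subgroup of finite index of `J` are stable under `G`. -/
theorem block_full [CharZero L] [IsAlgClosed L] [FiniteDimensional L W] (ρ : G →* End L W)
    (J : Subgroup G)
    (hsub : ∀ J' ≤ J, J'.relIndex J ≠ 0 → ∀ S : Submodule L W, (∀ g ∈ J', ∀ s ∈ S, ρ g s ∈ S) →
      GStab ρ S) (B : Submodule L W) (hB : GSimple ρ B)
    {𝔩 : Submodule L (End L B)} (hl : IsLie 𝔩)
    (hconj : ∀ g ∈ J, ∀ x ∈ 𝔩, resρ ρ B hB.1 g * x * resρ ρ B hB.1 g⁻¹ ∈ 𝔩)
    (hone : (1 : End L B) ∈ 𝔩) {P : End L B} (hP : P ∈ 𝔩) (hPP : P * P = P)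
    (hcop : Nat.Coprime (finrank L (LinearMap.range P)) (finrank L B))
    (hdim : 2 ≤ finrank L B) : 𝔩 = ⊤ := by
  classical
  refine Pool.Agent.Helper2.MC.full_of_coprime ((resρ ρ B hB.1).comp J.subtype)
    (fun Γ' hΓ' S hS => ?_) hl (fun g x hx => hconj g g.2 x hx) hone hP hPP hcop hdim
  have h1 : (Γ'.map J.subtype).relIndex J ≠ 0 := by
    have h2 : (Γ'.map J.subtype).subgroupOf J = Γ' := by
      ext g
      rw [Subgroup.mem_subgroupOf, Subgroup.mem_map]
      constructor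
      · rintro ⟨x, hx, hx'⟩
        have : x = g := Subtype.ext hx'
        rwa [this] at hx
      · intro hg
        exact ⟨g, hg, rfl⟩
    rw [Subgroup.relIndex, h2]
    exact hΓ'.index_ne_zero
  have h2 := hsub (Γ'.map J.subtype) (Subgroup.map_subtype_le Γ') h1 (S.map B.subtype) (by
    rintro _ ⟨g, hg, rfl⟩ _ ⟨s, hs, rfl⟩
    exact ⟨_, hS g hg s hs, rfl⟩)
  rcases hB.2.2 _ h2 (Submodule.map_subtype_le B S) with h | h
  · left
    rw [eq_bot_iff]
    intro s hs
    have h3 : (s : W) ∈ S.map B.subtype := ⟨s, hs, rfl⟩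
    rw [h] at h3
    rw [Submodule.mem_bot] at h3 ⊢
    exact Subtype.ext h3
  · right
    rw [eq_top_iff]
    intro s _
    have h3 : (s : W) ∈ S.map B.subtype := by rw [h]; exact s.2
    obtain ⟨s', hs', h4⟩ := h3
    have : s' = s := Subtype.ext h4
    rwa [this] at hs'

end Pool.Agent.Helper15.MU
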