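import Pool.Agent.Helper15.MU.Sub

/-! Project MU. The theorem for covers, from the geometric input. -/

set_option autoImplicit false

namespace Pool.Agent.Helper15.MU

open IntermediateField CategoryTheory MonoidalCategory Pool.Agent.Helper15.GD
  Pool.Agent.Helper15.QM Pool.Agent.Helper70.MTG Pool.Agent.Helper75.QC
  Pool.Agent.Helper75.WC Pool.Agent.Helper48.TT Pool.Agent.Helper15.V7 Pool.Agent.Helper15.MT

variable {Ω L G : Type} [Field Ω] [Field L] [Group G] {T : MotivicCoh Ω L G} {J P : Subgroup G}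
  {𝓜 : Set (Lˣ →* G)} (hT : T.IsMotivic)

/-- coprime multiplicities -/
theorem HasCop.abs {V : ModuleCat.{0} L} {ρ : G → (V ⟶ V)} {m : Lˣ →* G}
    {B : Submodule L V} (h : HasCop ρ m B) (r : G →* Module.End L V)
    (hr : ∀ g, r g = (ρ g).hom) : IsCopA r m B := by
  obtain ⟨a, b, hab, h1, h2⟩ := h
  have hwt : ∀ (k : ℤ) (w : V), w ∈ B ⊓ weight ρ m k →
      ∀ u : Lˣ, r (m u) w = ((u ^ k : Lˣ) : L) • w := by
    intro k w hw u
    have h4 := (Submodule.mem_iInf _).1 (show w ∈ weight ρ m k from hw.2)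
    rw [hr]
    exact Module.End.mem_eigenspace_iff.1 (h4 u)
  exact ⟨a, b, B ⊓ weight ρ m a, B ⊓ weight ρ m b, hab, h1, h2, fun u w hw => hwt a w hw u,
    fun u w hw => hwt b w hw u⟩

/-- forms on `S ⊕ S^∨` -/
theorem isFixedOn_iff {V : ModuleCat.{0} L} {ρ : G → (V ⟶ V)} {S : Submodule L V}
    (r : G →* Module.End L V) (hr : ∀ g, r g = (ρ g).hom) (hS : GStab r S) {n : ℕ}
    (t : MultilinearMap L (fun _ : Fin n => S × Module.Dual L S) L) (γ : G) :
    IsFixedOn ρ S t γ ↔ Inv (hatG (resρ r S hS γ) (resρ r S hS γ⁻¹)) t := by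
  constructor
  · intro h z
    refine h z _ fun k => ⟨?_, fun x y hxy => ?_⟩
    · rw [← hr]
      rfl
    · have h1 : resρ r S hS γ⁻¹ y = x := by
        have h2 : y = resρ r S hS γ x := by
          apply Subtype.ext
          rw [hxy, ← hr]
          rfl
        rw [h2, ← Module.End.mul_apply, ← map_mul, inv_mul_cancel, map_one,
          Module.End.one_apply]
      show (z k).2 (resρ r S hS γ⁻¹ y) = _
      rw [h1]
  · intro h z z' hz
    have h1 : z' = fun k => hatG (resρ r S hS γ) (resρ r S hS γ⁻¹) (z k) := by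
      funext k
      obtain ⟨h1, h2⟩ := hz k
      refine Prod.ext (Subtype.ext ?_) (LinearMap.ext fun y => ?_)
      · rw [h1, ← hr]
        rfl
      · refine h2 (resρ r S hS γ⁻¹ y) y ?_
        rw [← hr]
        show (y : V) = ((resρ r S hS γ (resρ r S hS γ⁻¹ y) : S) : V)
        rw [← Module.End.mul_apply, ← map_mul, mul_inv_cancel, map_one, Module.End.one_apply]
    rw [h1]
    exact h z

/-- **The theorem for covers.** -/
theorem cover [IsAlgClosed Ω] [CharZero L] [IsAlgClosed L] (hJ : IsArithmetic T J P 𝓜)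
    {K : Ext Ω} (R : IntermediateField Ω K) [FiniteDimensional R K] [IsGalois R K]
    (hab : ∀ g h : K ≃ₐ[R] K, g * h = h * g)
    (hM : ∀ M : IntermediateField R K, IsCyclic (M ≃ₐ[R] M) →
      Uniruled Ω M 2 ∨ ∃ n, RowB (T.toTheory hT).toBaseTheory R M n)
    (K₀ : Ext Ω) (j : K₀.Hom K) (hj : j.IsAlgebraic) :
    (∀ γ, ∃ δ ∈ P, T.act 2 K₀ γ = T.act 2 K₀ δ) ∧
    ∀ J' ≤ J, J'.relIndex J ≠ 0 → IsTate (T.act 2 K₀) (T.act 2 K₀) J' ∧
      ∀ S, IsCop (T.act 2 K₀) 𝓜 S → HasSameForms (T.act 2 K₀) J' S := by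
  obtain ⟨ι, hι, D, C, d, z, al, hD, hC, hz, hal, hd, hinj⟩ :=
    mt_cover (T.toTheory hT) (ssimple_of hT hJ) (lines_of hT hJ) R hab hM
  let ρ : G →* Module.End L (T.H 2 K₀) := (T.toTheory hT).act 2 K₀
  let s : T.H 2 K₀ →ₗ[L] T.H 2 K := (T.toTheory hT).map 2 j
  have hs : ∀ γ t, (T.toTheory hT).act 2 K γ (s t) = s (ρ γ t) :=
    fun γ t => ((T.toTheory hT).map_act 2 j γ t).symm
  have hsinj : Function.Injective s := (T.toTheory hT).inj 2 j hj
  have hd' : ∀ i γ t, (T.act 1 (D i) γ).hom ((d i ∘ₗ s) t) =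
      (T.tate γ * al i γ) • (d i ∘ₗ s) (ρ γ t) := by
    intro i γ t
    have h1 := hd i γ (s t)
    rw [hs] at h1
    exact h1
  have hinj' : ∀ t, (∀ i, (d i ∘ₗ s) t = 0) → t = 0 := fun t ht =>
    hsinj ((hinj _ ht).trans (map_zero s).symm)
  have hfin : FiniteDimensional L (T.H 2 K₀) := by
    have h1 : ∀ i, FiniteDimensional L ((T.toTheory hT).H 1 (D i)) :=
      fun i => hT.base.finite 1 (D i) (hD i)
    refine FiniteDimensional.of_injective (LinearMap.pi fun i => d i ∘ₗ s) ?_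
    refine (injective_iff_map_eq_zero _).2 fun t ht => hinj' t fun i => ?_
    exact congrFun ht i
  have H := fun (J' : Subgroup G) (h1 : J' ≤ J) (h2 : J'.relIndex J ≠ 0) =>
    hyp_of hT hJ ρ D C hD hC (fun i => d i ∘ₗ s) z al hz hal hd' hinj' J' h1 h2
  have hself : J.relIndex J ≠ 0 := by rw [Subgroup.relIndex_self]; exact one_ne_zero
  have hgen : ∀ Q : Subgroup G,
      (∀ (n : ℕ) (D : Fin n → Ext Ω), (∀ i, (D i).FG) → IsFull T Q D) →
      ∀ γ, ∃ δ ∈ Q, ρ γ = ρ δ := by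
    intro Q hQ γ
    obtain ⟨δ, h1, h2⟩ := gen_of hT hQ D C hD hC z al hz hal γ
    refine ⟨δ, h1, LinearMap.ext fun t => ?_⟩
    refine sub_eq_zero.1 (hinj' _ fun i => ?_)
    have h3 := (H J le_rfl hself).tw i γ t
    have h4 := (H J le_rfl hself).tw i δ t
    rw [twist_congr (h2 i).1 (h2 i).2] at h3
    rw [map_sub]
    exact sub_eq_zero.2 (h3.symm.trans h4)
  refine ⟨fun γ => ?_, fun J' h1 h2 => ⟨⟨fun S hS => ?_, fun f hf γ _ => ?_, fun β hβ γ _ => ?_⟩,
    fun S hSB n t ht γ => ?_⟩⟩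
  · obtain ⟨δ, h1, h2⟩ := hgen P (fun n D hD => (hJ.deligne n D hD).1) γ
    exact ⟨δ, h1, ModuleCat.hom_ext h2⟩
  · exact ((H J' h1 h2).transfer_sub S hS).2
  · obtain ⟨c, hc⟩ := (H J' h1 h2).transfer_semi f.hom (fun g hg => by
      obtain ⟨c, hc⟩ := hf g hg
      exact ⟨c, fun x => congrArg (fun f => f.hom x) hc⟩) γ
    exact ⟨c, ModuleCat.hom_ext (LinearMap.ext hc)⟩
  · exact (H J' h1 h2).transfer_form β (fun g hg => hβ g hg) γ
  · obtain ⟨hS, hB⟩ := hSB
    have hS' : GStab ρ S := fun g s hs => hS g (Subgroup.mem_top _) s hs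
    have HS := fun (J' : Subgroup G) (h1 : J' ≤ J) (h2 : J'.relIndex J ≠ 0) =>
      hyp_of hT hJ (resρ ρ S hS') D C hD hC (fun i => (d i ∘ₗ s) ∘ₗ S.subtype) z al hz hal
        (fun i γ t => hd' i γ t) (fun t ht => Subtype.ext (hinj' _ ht)) J' h1 h2
    have hsub : ∀ J'' ≤ J', J''.relIndex J' ≠ 0 → ∀ T : Submodule L S,
        (∀ g ∈ J'', ∀ s ∈ T, resρ ρ S hS' g s ∈ T) →
        GStab (resρ ρ S hS') T ∧ ∃ T', GStab (resρ ρ S hS') T' ∧ IsCompl T T' := by
      intro J'' h3 h4 T hT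
      have H' := HS J'' (h3.trans h1) (Subgroup.relIndex_ne_zero_trans h4 h2)
      obtain ⟨h5, T', h6, h7⟩ := H'.transfer_sub T hT
      exact ⟨h5, T', (H'.transfer_sub T' h6).1, h7⟩
    have hmain := mt_abstract (resρ ρ S hS') J' hsub (HS J' h1 h2).transfer_semi
      (HS J' h1 h2).transfer_form 𝓜
      (fun m hm => ⟨mem_of_relIndex h2 m (hJ.mem m hm),
        isWt_res hS' (isWt_of_iSup _ (hJ.weights m hm K₀))⟩)
      (fun B hB' hdim => by
        have h3 := simple_map hS' hB'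
        obtain ⟨m, hm, hr⟩ := hB (B.map S.subtype) (Submodule.map_subtype_le S B)
          ⟨h3.2.1, fun γ _ => h3.1 γ, fun T hTB hT =>
            h3.2.2 T (fun γ => hT γ (Subgroup.mem_top _)) hTB⟩
          (by rw [Submodule.finrank_map_subtype_eq]; exact hdim)
        exact ⟨m, hm, isCop_res hS' (hr.abs ρ fun _ => rfl)⟩) t
      fun g hg => (isFixedOn_iff ρ (fun _ => rfl) hS' t g).1 (ht g hg)
    obtain ⟨δ, h3, h4⟩ := hgen (generated 𝓜) (fun n D hD => (hJ.deligne n D hD).2) γ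
    have h5 : ∀ g ∈ generated 𝓜, Inv (hatG (resρ ρ S hS' g) (resρ ρ S hS' g⁻¹)) t := by
      refine inv_closure (resρ ρ S hS') t _ fun g hg => ?_
      obtain ⟨_, ⟨m, hm, u, rfl⟩, hconj⟩ := Group.mem_conjugatesOfSet_iff.1 hg
      obtain ⟨c, rfl⟩ := isConj_iff.1 hconj
      exact hmain m hm c u
    have h4' : resρ ρ S hS' γ = resρ ρ S hS' δ := by
      refine LinearMap.ext fun x => Subtype.ext ?_
      show ρ γ (x : T.H 2 K₀) = ρ δ x
      rw [h4]
    have h6 := h5 δ h3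
    rw [← h4', ← inv_congr h4'] at h6
    exact (isFixedOn_iff ρ (fun _ => rfl) hS' t γ).2 h6

end Pool.Agent.Helper15.MU
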