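import Pool.Agent.Helper15.MT.Defs

/-!
# Cocharacters with two weights whose multiplicities are coprime
-/

set_option autoImplicit false

namespace Pool.Agent.Helper15.MU

open CategoryTheory Pool.Agent.Helper15.MT

variable {L G : Type} [Field L] [Group G] {V : ModuleCat.{0} L}

/-- `B` is the sum of its parts of weights `a ≠ b`, and their dimensions are coprime. -/
def HasCop (ρ : G → (V ⟶ V)) (m : Lˣ →* G) (B : Submodule L V) : Prop :=
  ∃ a b : ℤ, a ≠ b ∧ Nat.Coprime (Module.finrank L (B ⊓ weight ρ m a : Submodule L V))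
      (Module.finrank L (B ⊓ weight ρ m b : Submodule L V)) ∧
    B = (B ⊓ weight ρ m a) ⊔ (B ⊓ weight ρ m b)

/-- `S` is stable under `G`, and every simple `B ≤ S` of dimension at least two has a cocharacter
in `𝓜` with only two weights on `B`, whose multiplicities are coprime. -/
def IsCop (ρ : G → (V ⟶ V)) (𝓜 : Set (Lˣ →* G)) (S : Submodule L V) : Prop :=
  IsStable ρ ⊤ S ∧ ∀ B ≤ S, IsSimple ρ B → 1 < Module.finrank L B → ∃ m ∈ 𝓜, HasCop ρ m B

/-- The multilinear form `t` on `S ⊕ S^∨` is fixed by `γ`; here `S ≤ V` is stable under `G`. -/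
def IsFixedOn (ρ : G → (V ⟶ V)) (S : Submodule L V) {n : ℕ}
    (t : MultilinearMap L (fun _ : Fin n => S × Module.Dual L S) L) (γ : G) : Prop :=
  ∀ z z' : Fin n → S × Module.Dual L S,
    (∀ k, ((z' k).1 : V) = (ρ γ).hom (z k).1 ∧
      ∀ x y : S, (y : V) = (ρ γ).hom x → (z' k).2 y = (z k).2 x) → t z' = t z

/-- All multilinear forms on `S ⊕ S^∨` which are fixed by `J` are fixed by `G`. -/
def HasSameForms (ρ : G → (V ⟶ V)) (J : Subgroup G) (S : Submodule L V) : Prop :=
  ∀ (n : ℕ) (t : MultilinearMap L (fun _ : Fin n => S × Module.Dual L S) L),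
    (∀ γ ∈ J, IsFixedOn ρ S t γ) → ∀ γ, IsFixedOn ρ S t γ

end Pool.Agent.Helper15.MU
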