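import Pool.Agent.Helper15.MT.Cover
import Pool.Agent.Helper15.MU.Defs
import Pool.Agent.Helper15.MU.Main

/-! Project MU. Subrepresentations. -/

set_option autoImplicit false

namespace Pool.Agent.Helper15.MU

open Module Pool.Agent.Helper15.MT

section weights

variable {L W : Type*} [Field L] [AddCommGroup W] [Module L W]

/-- the eigenvectors of `m 2` are weight vectors -/
theorem exists_weight [CharZero L] {m : Lˣ → End L W} {D : End L W} (h : IsWt m D) {w : W}
    {μ : L} (hw : m (two L) w = μ • w) :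
    ∃ k : ℤ, ∀ u, m u w = ((u ^ k : Lˣ) : L) • w := by
  classical
  by_cases hw0 : w = 0
  · exact ⟨0, fun u => by rw [hw0, map_zero, smul_zero]⟩
  obtain ⟨ι, hι, b, p, hb⟩ := h
  have := Fintype.ofFinite ι
  have h1 : w = ∑ i, b.repr w i • b i := (b.sum_repr w).symm
  have h2 : ∀ i, b.repr w i = 0 ∨ (2 : L) ^ p i = μ := by
    have h3 : m (two L) w = ∑ i, (b.repr w i * (2 : L) ^ p i) • b i := by
      conv_lhs => rw [h1]
      rw [map_sum]
      refine Finset.sum_congr rfl fun i _ => ?_
      rw [map_smul, (hb i).1, smul_smul, two_zpow]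
    have h4 : μ • w = ∑ i, (b.repr w i * μ) • b i := by
      conv_lhs => rw [h1]
      rw [Finset.smul_sum]
      refine Finset.sum_congr rfl fun i _ => ?_
      rw [smul_smul, mul_comm]
    intro i
    have h5 : (∑ i, (b.repr w i * (2 : L) ^ p i) • b i) = ∑ i, (b.repr w i * μ) • b i := by
      rw [← h3, ← h4, hw]
    have h6 := congrArg (fun z => b.repr z i) h5
    simp only [map_sum, map_smul, Finsupp.coe_finsetSum, Finset.sum_apply, Basis.repr_self,
      Finsupp.smul_single, smul_eq_mul, mul_one] at h6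
    rw [Finset.sum_eq_single i (fun j _ hj => by rw [Finsupp.single_eq_of_ne hj.symm])
      (fun h => absurd (Finset.mem_univ i) h), Finset.sum_eq_single i
      (fun j _ hj => by rw [Finsupp.single_eq_of_ne hj.symm])
      (fun h => absurd (Finset.mem_univ i) h), Finsupp.single_eq_same,
      Finsupp.single_eq_same] at h6
    by_cases h0 : b.repr w i = 0
    · exact Or.inl h0
    · exact Or.inr (mul_left_cancel₀ h0 h6)
  obtain ⟨i₀, hi₀⟩ : ∃ i, b.repr w i ≠ 0 := by
    by_contra hcon
    push Not at hcon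
    apply hw0
    rw [h1]
    exact Finset.sum_eq_zero fun i _ => by rw [hcon i, zero_smul]
  have h3 : ∀ i, b.repr w i = 0 ∨ p i = p i₀ := by
    intro i
    rcases h2 i with h | h
    · exact Or.inl h
    · exact Or.inr (zpow_two_inj (h.trans ((h2 i₀).resolve_left hi₀).symm))
  refine ⟨p i₀, fun u => ?_⟩
  conv_lhs => rw [h1]
  conv_rhs => rw [h1]
  rw [map_sum, Finset.smul_sum]
  refine Finset.sum_congr rfl fun i _ => ?_
  rw [map_smul, (hb i).1, smul_comm]
  rcases h3 i with h | h
  · rw [h, zero_smul, smul_zero, smul_zero]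
  · rw [h]

/-- the automorphism `m 2` is diagonalisable -/
theorem diag_two [CharZero L] {m : Lˣ → End L W} {D : End L W} (h : IsWt m D) :
    ⨆ μ : L, Module.End.eigenspace (m (two L)) μ = ⊤ := by
  obtain ⟨ι, hι, b, p, hb⟩ := h
  rw [eq_top_iff, ← b.span_eq, Submodule.span_le]
  rintro _ ⟨i, rfl⟩
  refine (le_iSup (fun μ : L => Module.End.eigenspace (m (two L)) μ) ((two L ^ p i : Lˣ) : L)) ?_
  rw [Module.End.mem_eigenspace_iff, (hb i).1]

end weights

variable {L W G : Type} [Field L] [Group G] [AddCommGroup W] [Module L W]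

theorem isWt_res [CharZero L] [FiniteDimensional L W] {ρ : G →* End L W} {m : Lˣ →* G}
    {S : Submodule L W} (hS : GStab ρ S) (h : ∃ D, IsWt (fun u => ρ (m u)) D) :
    ∃ D, IsWt (fun u => resρ ρ S hS (m u)) D := by
  obtain ⟨D, hD⟩ := h
  refine isWt_of_iSup _ ?_
  have h1 : ⨆ μ : L, Module.End.eigenspace (resρ ρ S hS (m (two L))) μ = ⊤ :=
    diag_restrict (diag_two hD) fun s hs => hS (m (two L)) s hs
  rw [eq_top_iff, ← h1]
  refine iSup_le fun μ w hw => ?_
  rw [Module.End.mem_eigenspace_iff] at hw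
  obtain ⟨k, hk⟩ := exists_weight hD (w := (w : W)) (μ := μ) (congrArg Subtype.val hw)
  refine Submodule.mem_iSup_of_mem k ?_
  rw [Submodule.mem_iInf]
  intro u
  rw [Module.End.mem_eigenspace_iff]
  exact Subtype.ext (hk u)

/-- subspaces of a subrepresentation -/
theorem isCop_res {ρ : G →* End L W} {m : Lˣ →* G} {S : Submodule L W} (hS : GStab ρ S)
    {B : Submodule L S} (h : IsCopA ρ m (B.map S.subtype)) : IsCopA (resρ ρ S hS) m B := by
  obtain ⟨a, b, H, H', hab, hcop, hB, h1, h2⟩ := h
  have hBS : B.map S.subtype ≤ S := Submodule.map_subtype_le S B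
  have hH : H ≤ S := (le_sup_left.trans hB.ge).trans hBS
  have hH' : H' ≤ S := (le_sup_right.trans hB.ge).trans hBS
  have e : ∀ T : Submodule L W, T ≤ S → (T.comap S.subtype).map S.subtype = T := by
    intro T hT
    rw [Submodule.map_comap_subtype]
    exact inf_eq_right.2 hT
  have e' : ∀ T : Submodule L W, T ≤ S → finrank L (T.comap S.subtype) = finrank L T := by
    intro T hT
    conv_rhs => rw [← e T hT]
    exact (Submodule.finrank_map_subtype_eq S _).symm
  refine ⟨a, b, H.comap S.subtype, H'.comap S.subtype, hab, ?_, ?_, fun u w hw =>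
    Subtype.ext (h1 u w hw), fun u w hw => Subtype.ext (h2 u w hw)⟩
  · rw [e' H hH, e' H' hH']
    exact hcop
  · apply Submodule.map_injective_of_injective S.subtype_injective
    rw [hB, Submodule.map_sup, e H hH, e H' hH']

theorem simple_map {ρ : G →* End L W} {S : Submodule L W} (hS : GStab ρ S)
    {B : Submodule L S} (h : GSimple (resρ ρ S hS) B) : GSimple ρ (B.map S.subtype) := by
  obtain ⟨h1, h2, h3⟩ := h
  refine ⟨?_, ?_, fun T hT hTB => ?_⟩
  · rintro g _ ⟨s, hs, rfl⟩
    exact ⟨_, h1 g s hs, rfl⟩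
  · intro h4
    apply h2
    apply Submodule.map_injective_of_injective S.subtype_injective
    rw [h4, Submodule.map_bot]
  · have hTS : T ≤ S := hTB.trans (Submodule.map_subtype_le S B)
    have e : (T.comap S.subtype).map S.subtype = T := by
      rw [Submodule.map_comap_subtype]
      exact inf_eq_right.2 hTS
    have h4 : T.comap S.subtype ≤ B := by
      intro s hs
      obtain ⟨s', hs', h5⟩ := hTB hs
      have : s' = s := Subtype.ext h5
      rwa [← this]
    rcases h3 _ (fun g s hs => hT g _ hs) h4 with h5 | h5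
    · left
      rw [← e, h5, Submodule.map_bot]
    · right
      rw [← e, h5]

/-- stable subspaces of a subrepresentation -/
theorem stab_map {ρ : G →* End L W} {S : Submodule L W} {J : Set G} {T : Submodule L S}
    (hS : GStab ρ S) (h : ∀ g ∈ J, ∀ s ∈ T, resρ ρ S hS g s ∈ T) :
    ∀ g ∈ J, ∀ s ∈ T.map S.subtype, ρ g s ∈ T.map S.subtype := by
  rintro g hg _ ⟨s, hs, rfl⟩
  exact ⟨_, h g hg s hs, rfl⟩

end Pool.Agent.Helper15.MU
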